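import Pool.Agent.H36.BF.All

/-!
# Almost primes with a bounded number of prime factors just above `α a_n`, for almost every `α` and
EVERY large `n`

The question is on the primes in the intervals `[2 ^ n, 2 ^ n + p_n]`, for every `n`.  For an arbitrary
sequence `a_n ≥ exp (n ^ κ)`, for instance `a_n = 2 ^ n`, and for any `δ > 0` we look at the intervals
`[α a_n, α a_n + H]` with `(log a_n) ^ (1 + δ) ≤ H ≤ (log a_n) ^ A`, for almost every `α > 0`, but for
EVERY large `n`, with no exceptional set of exponents.  There is a positive `c` such that the number of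
the integers in the interval all of whose prime factors are larger than `a_n ^ c` is of the order of
magnitude `H / log a_n`.  So all these intervals contain integers with at most `r` prime factors, `r`
depending only on `δ`, `A` and `κ`, about as many as one expects, and the number of primes in them is at most
a constant times the expected one.  In the companion result `EveryExponent` the intervals are shorter, down
to `δ log a_n`, but the number of the prime factors is only bounded by `C log log a_n`, and the bound for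
the number of primes is too large by a factor `log log a_n`.

Proof.  Let `z₁ = exp (c₁ log x / log log x)` and `z₂ = x ^ c₂`.  Up to `z₁` the moments of any fixed order of the
number of survivors are compared with a model, by a fundamental lemma with error `(log x) ^ (-B)`.  For the primes
between `z₁` and `z₂` we use the upper and lower sieve functions of Brun and Hooley, which are short sums over
divisors composed of such primes.  The moments of order `2 k` of the difference of the weighted sum and its
mean value times the number of survivors of the first stage are expanded; a tuple of divisors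
in which some argument occurs once contributes its mean value, zero, up to the tuples having a common
prime, which are rare since `p > z₁`; the remaining tuples have at most `k` different arguments.  This
bounds the measure of the exceptional set by `(log x) ^ (-A)` for every `A`, since `H ≥ (log x) ^ (1 + δ)`, and the lemma of
Borel and Cantelli applies.
-/

set_option autoImplicit false

open MeasureTheory Filter Finset

namespace Pool.Agent.Results.MP_78b39f_nt.BoundedFactors

/-- all prime factors of `m` are larger than `y` -/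
def Rough (y : ℝ) (m : ℕ) : Prop := ∀ q : ℕ, q.Prime → q ∣ m → y < q

open Classical in
/-- the number of the integers in `[x, x + H]` all of whose prime factors are larger than `y` -/
noncomputable def roughIn (y x H : ℝ) : ℕ := ((Icc ⌈x⌉₊ ⌊x + H⌋₊).filter (fun m => Rough y m)).card

/-- the number of primes in `[x, x + H]` -/
noncomputable def primesIn (x H : ℝ) : ℕ := ((Icc ⌈x⌉₊ ⌊x + H⌋₊).filter Nat.Prime).card

open Pool.Agent.H36.RW Pool.Agent.H36.BF Pool.Agent.H373R2.T7 in
theorem result (a : ℕ → ℝ) (κ : ℝ) (hκ : 0 < κ) (ha : ∀ᶠ n : ℕ in atTop, Real.exp ((n : ℝ) ^ κ) ≤ a n)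
    (A : ℕ) (δ : ℝ) (hδ : 0 < δ) :
    ∃ (r : ℕ) (c C : ℝ), 0 < c ∧ 0 < C ∧ ∀ᵐ α : ℝ ∂volume, 0 < α → ∀ᶠ n : ℕ in atTop, ∀ H : ℝ,
      Real.log (a n) ^ (1 + δ) ≤ H → H ≤ Real.log (a n) ^ A →
        H / (C * Real.log (a n)) ≤ roughIn (a n ^ c) (α * a n) H ∧
        (roughIn (a n ^ c) (α * a n) H : ℝ) ≤ C * (H / Real.log (a n)) ∧
        (∀ m : ℕ, α * a n ≤ m → (m : ℝ) ≤ α * a n + H → Rough (a n ^ c) m → m.primeFactorsList.length ≤ r) ∧
        (primesIn (α * a n) H : ℝ) ≤ C * (H / Real.log (a n)) := by
  classical
  obtain ⟨η0, hη0, hae⟩ := bf_ae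
  set δ' : ℝ := min δ η0 / 2 with hδ'
  have hm0 : 0 < min δ η0 := lt_min hδ hη0
  have hδ'0 : 0 < δ' := by positivity
  have hδ'1 : 2 * δ' ≤ δ := by
    rw [hδ']
    linarith [min_le_left δ η0]
  have hδ'2 : δ' ≤ η0 := by
    rw [hδ']
    linarith [min_le_right δ η0]
  obtain ⟨c, hc, hc2, h⟩ := hae a κ hκ ha (A + 1) δ' hδ'0 hδ'2
  obtain ⟨c1, hc1, hVl⟩ := Vz_lower
  obtain ⟨C1, hC1, hVu⟩ := Vz_upper
  set C : ℝ := 64 * c / c1 + 64 * C1 / c with hC
  have hCa : 64 * c / c1 ≤ C := by
    have : 0 < 64 * C1 / c := by positivity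
    rw [hC]; linarith
  have hCb : 64 * C1 / c ≤ C := by
    have : 0 < 64 * c / c1 := by positivity
    rw [hC]; linarith
  have hC0 : 0 < C := by rw [hC]; positivity
  refine ⟨⌈4 / c⌉₊, c, C, hc, hC0, ?_⟩
  have hat := a_tendsto a κ hκ ha
  have hlt : Tendsto (fun n => Real.log (a n)) atTop atTop := Real.tendsto_log_atTop.comp hat
  filter_upwards [h] with α hα h0
  filter_upwards [hα h0, hat.eventually_gt_atTop 1, hlt.eventually_ge_atTop 3,
    hlt.eventually ((tendsto_rpow_atTop hδ'0).eventually_ge_atTop 2), hlt.eventually (ev_pow_exp 3 (c / 2) (by positivity) 0),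
    hlt.eventually_ge_atTop (2 * Real.log (α + 1)), hlt.eventually (ev_pow_exp 1 1 one_pos A),
    hlt.eventually_ge_atTop (-(2 * Real.log α) + 2)] with n hn g1 g2 g3 g4 g6 g7 g8 H hH1 hH2
  set x0 := a n with hx0
  set L := Real.log x0 with hL
  have hx00 : 0 < x0 := by linarith
  have hL0 : 0 < L := by linarith
  have hL1 : 1 ≤ L := by linarith
  set z := zE c L with hz
  have hxc : x0 ^ c = Real.exp (c * L) := by
    rw [Real.rpow_def_of_pos hx00, mul_comm]
  have hzfl : z = ⌊x0 ^ c⌋₊ := by rw [hxc]; rfl
  -- the length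
  have hw1 : 1 ≤ L ^ (1 + δ') := Real.one_le_rpow hL1 (by linarith)
  have hHlow : L ^ (1 + δ') + 1 ≤ H := by
    refine le_trans ?_ hH1
    calc L ^ (1 + δ') + 1 ≤ 2 * L ^ (1 + δ') := by linarith
      _ ≤ L ^ δ' * L ^ (1 + δ') := mul_le_mul_of_nonneg_right g3 (by positivity)
      _ = L ^ (δ' + (1 + δ')) := (Real.rpow_add hL0 _ _).symm
      _ ≤ L ^ (1 + δ) := Real.rpow_le_rpow_of_exponent_le hL1 (by linarith)
  have hH0 : 1 ≤ H := by linarith
  have hHpos : 0 < H := by linarith
  -- the starting point
  set x := α * x0 with hx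
  have hxpos : 0 < x := by positivity
  have hlogx : Real.log x = Real.log α + L := by
    rw [hx, Real.log_mul h0.ne' hx00.ne']
  set m0 := ⌈x⌉₊ - 1 with hm0d
  have hc1' : 0 < ⌈x⌉₊ := Nat.ceil_pos.2 hxpos
  have hm1' : (m0 : ℝ) + 1 = ⌈x⌉₊ := by
    have : m0 + 1 = ⌈x⌉₊ := by omega
    exact_mod_cast this
  have hmx : (m0 : ℝ) < x := by
    have := Nat.ceil_lt_add_one hxpos.le
    linarith
  have hmx2 : x ≤ m0 + 1 := by
    rw [hm1']
    exact Nat.le_ceil _
  set M := ⌊x + H⌋₊ with hM
  have hM1 : (M : ℝ) ≤ x + H := Nat.floor_le (by positivity)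
  have hM2 : x + H < M + 1 := Nat.lt_floor_add_one _
  have hmM : m0 ≤ M := by
    have : (m0 : ℝ) < M + 1 := by linarith
    exact_mod_cast Nat.lt_add_one_iff.1 (by exact_mod_cast this)
  set T := M - m0 with hT
  have hTr : (T : ℝ) = M - m0 := by
    rw [hT, Nat.cast_sub hmM]
  have hT1 : H - 1 ≤ T := by linarith
  have hT2 : (T : ℝ) ≤ H + 1 := by linarith
  have hok := hn T (by linarith) (by
    rw [pow_succ]
    have h5 : 1 ≤ L ^ A := one_le_pow₀ hL1
    have h6 : L ^ A * 2 ≤ L ^ A * L := mul_le_mul_of_nonneg_left (by linarith) (by positivity)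
    linarith)
  obtain ⟨hok1, hok2⟩ := hok
  have hreq : roughIn (x0 ^ c) x H = Rg z m0 T := by
    rw [← roughIn_eq z x H hxpos hH0]
    unfold roughIn Pool.Agent.H36.RW.roughIn
    congr 1
    apply filter_congr
    intro m _
    unfold Rough Pool.Agent.H36.RW.Rough
    constructor
    · intro h1 q hq hd
      rw [hzfl]
      exact (Nat.floor_lt (by positivity)).2 (h1 q hq hd)
    · intro h1 q hq hd
      have h2 := h1 q hq hd
      rw [hzfl] at h2
      exact (Nat.floor_lt (by positivity)).1 h2
  rw [hreq]
  -- the size of z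
  have he3 : 3 ≤ Real.exp (c * L / 2) := by
    rw [pow_zero, mul_one] at g4
    have h4 : c / 2 * L = c * L / 2 := by ring
    rw [h4] at g4
    exact g4
  have hlogz1 : c * L / 2 ≤ Real.log z := log_floor_ge (c * L) he3
  have hlogz0 : 0 < Real.log z := lt_of_lt_of_le (by positivity) hlogz1
  have hz2 : 2 ≤ z := by
    by_contra h1
    push Not at h1
    have h2 : z = 0 ∨ z = 1 := by omega
    rcases h2 with h2 | h2 <;> rw [h2] at hlogz0 <;> simp at hlogz0
  have hlogz2 : Real.log z ≤ c * L := by
    rw [← Real.log_exp (c * L)]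
    exact Real.log_le_log (by exact_mod_cast (by omega : 0 < z)) (zE_le c L)
  have hV0 : 0 < Vz z := Vz_pos z
  have hVlow : c1 / (c * L) ≤ Vz z := (div_le_div_of_nonneg_left hc1.le hlogz0 hlogz2).trans (hVl z hz2)
  have hVup : Vz z ≤ 2 * C1 / (c * L) := by
    refine ((hVu z hz2).trans (div_le_div_of_nonneg_left hC1.le (by positivity) hlogz1)).trans (le_of_eq ?_)
    field_simp
  have hH2' : H / 2 ≤ T := by
    have h3 : 2 ≤ L ^ (1 + δ') + 1 := by linarith
    linarith
  have hT2' : (T : ℝ) ≤ 2 * H := by linarith
  have hup : (Rg z m0 T : ℝ) ≤ C * (H / L) := by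
    calc (Rg z m0 T : ℝ) ≤ 16 * (T * Vz z) := hok2
      _ ≤ 16 * ((2 * H) * (2 * C1 / (c * L))) := by gcongr
      _ = 64 * C1 / c * (H / L) := by
          field_simp
          ring
      _ ≤ C * (H / L) := mul_le_mul_of_nonneg_right hCb (by positivity)
  refine ⟨?_, hup, ?_, ?_⟩
  · refine le_trans ?_ hok1
    calc H / (C * L) ≤ H / (64 * c / c1 * L) := by
          apply div_le_div_of_nonneg_left (by positivity) (by positivity)
          exact mul_le_mul_of_nonneg_right hCa hL0.le
      _ = 1 / 32 * ((H / 2) * (c1 / (c * L))) := by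
          field_simp
          ring
      _ ≤ 1 / 32 * (T * Vz z) := by gcongr
  · intro m hm1 hm2 hm3
    have hm0 : (0 : ℝ) < m := lt_of_lt_of_le hxpos hm1
    have hm0' : 0 < m := by exact_mod_cast hm0
    have hm3' : Pool.Agent.H36.RW.Rough z m := by
      intro q hq hd
      rw [hzfl]
      exact (Nat.floor_lt (by positivity)).2 (hm3 q hq hd)
    have h1 := rough_length z m hz2 hm0' hm3'
    have hHx : H ≤ x0 := by
      rw [one_mul, one_mul, Real.exp_log hx00] at g7
      exact hH2.trans g7
    have h2 : Real.log m ≤ 2 * L := by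
      have h3 : (m : ℝ) ≤ (α + 1) * x0 := by
        calc (m : ℝ) ≤ α * x0 + H := hm2
          _ ≤ (α + 1) * x0 := by linarith
      have h4 := Real.log_le_log hm0 h3
      rw [Real.log_mul (by positivity) hx00.ne', ← hL] at h4
      linarith
    have h3 : (m.primeFactorsList.length : ℝ) * (c * L / 2) ≤ 2 * L := by
      have h4 : (m.primeFactorsList.length : ℝ) * (c * L / 2) ≤ (m.primeFactorsList.length : ℝ) * Real.log z :=
        mul_le_mul_of_nonneg_left hlogz1 (Nat.cast_nonneg _)
      linarith
    have h4 : (m.primeFactorsList.length : ℝ) ≤ 4 / c := by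
      rw [le_div_iff₀ hc]
      have h5 : (m.primeFactorsList.length : ℝ) * c * L ≤ 4 * L := by linarith
      exact le_of_mul_le_mul_right h5 hL0
    exact_mod_cast h4.trans (Nat.le_ceil _)
  · -- primes are rough
    have hzx : (z : ℝ) < x := by
      have h1 : (z : ℝ) ≤ Real.exp (L / 2) := by
        refine (zE_le c L).trans (Real.exp_le_exp.2 ?_)
        have := mul_le_mul_of_nonneg_right hc2 hL0.le
        linarith
      have h2 : Real.exp (L / 2) < Real.exp (Real.log x) := by
        apply Real.exp_lt_exp.2
        rw [hlogx]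
        linarith
      rw [Real.exp_log hxpos] at h2
      linarith
    have h1 : primesIn x H ≤ Pool.Agent.H36.RW.roughIn z x H := by
      unfold primesIn Pool.Agent.H36.RW.roughIn
      apply card_le_card
      intro p hp
      rw [mem_filter, mem_Icc] at hp ⊢
      refine ⟨hp.1, ?_⟩
      intro q hq hd
      have h2 := (Nat.prime_dvd_prime_iff_eq hq hp.2).1 hd
      have h3 : x ≤ p := (Nat.le_ceil x).trans (by exact_mod_cast hp.1.1)
      have h4 : (z : ℝ) < q := by
        rw [h2]
        linarith
      exact_mod_cast h4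
    rw [roughIn_eq z x H hxpos hH0] at h1
    have h2 : (primesIn x H : ℝ) ≤ Rg z m0 T := by exact_mod_cast h1
    exact h2.trans hup

end Pool.Agent.Results.MP_78b39f_nt.BoundedFactors
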