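import Pool.Agent.H36.RW.Real

/-!
# Almost primes and primes just above `α a_n`, for almost every `α` and EVERY large `n`

The question is on the primes in the intervals `[2 ^ n, 2 ^ n + p_n]`, for every `n`.  For an arbitrary
sequence `a_n ≥ exp (n ^ κ)`, for instance `a_n = 2 ^ n`, we look at the intervals
`[α a_n, α a_n + H]`, for almost every `α > 0`, but for EVERY large `n`, with no exceptional set of
exponents.  Let `z = exp (c log a_n / log log a_n)`.  The number of the integers in the interval all of
whose prime factors are larger than `z` is `(1 + O(ε)) H ∏_{q ≤ z} (1 - 1 / q)`, simultaneously for all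
`H` between `δ log a_n` and `(log a_n) ^ A`; for `a_n = 2 ^ n` the length `p_n ~ n log n` of the question
is in this range, and even the intervals of length `δ n`, shorter than the average gap between the
primes, are covered.  These integers have at most `C log log a_n` prime factors.  Their number, which is of
the order of magnitude `H log log a_n / log a_n`, is an upper bound for the number of primes; so for
almost every `α` ALL the intervals `[α 2 ^ n, α 2 ^ n + p_n]` with `n ≥ n₀(α)` contain at most `C (log n) ^ 2`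
primes (for a single interval only the upper bound `2 n (1 + o(1))` is known), and at least
`c (log n) ^ 2` integers with at most `C log n` prime factors.

Proof.  The primes up to a small power `y` of `log a_n` are treated by the fundamental lemma in every
window.  For the primes between `y` and `z`, moments of order `k ~ A log log a_n` of the number of the
surviving elements are used; they are compared with the moments in the model in which the residue
classes modulo the primes are independent, by a form of the Brun-Hooley sieve which is uniform in the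
dimension `κ ≤ b / C`, with error `2 ^ (-b)`.  In the model the generating function of the number of
survivors is bounded prime by prime.  This gives exceptional sets of measure `(log a_n) ^ (-A)`, and the
lemma of Borel and Cantelli applies.
-/

set_option autoImplicit false

open MeasureTheory Filter Finset

namespace Pool.Agent.Results.MP_78b39f_nt.EveryExponent

/-- all prime factors of `m` are larger than `z` -/
def Rough (z m : ℕ) : Prop := ∀ q : ℕ, q.Prime → q ∣ m → z < q

open Classical in
/-- the number of the integers in `[x, x + H]` all of whose prime factors are larger than `z` -/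
noncomputable def roughIn (z : ℕ) (x H : ℝ) : ℕ := ((Icc ⌈x⌉₊ ⌊x + H⌋₊).filter (fun m => Rough z m)).card

/-- the number of primes in `[x, x + H]` -/
noncomputable def primesIn (x H : ℝ) : ℕ := ((Icc ⌈x⌉₊ ⌊x + H⌋₊).filter Nat.Prime).card

/-- the product of `1 - 1 / q` over the primes `q ≤ z` -/
noncomputable def V (z : ℕ) : ℝ := ∏ q ∈ (Icc 1 z).filter Nat.Prime, (1 - 1 / (q : ℝ))

/-- the integer part of `exp (c log x / log log x)` -/
noncomputable def level (c x : ℝ) : ℕ := ⌊Real.exp (c * Real.log x / Real.log (Real.log x))⌋₊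

open Pool.Agent.H36.RW Pool.Agent.H373R2.T7 in
theorem result (a : ℕ → ℝ) (κ : ℝ) (hκ : 0 < κ) (ha : ∀ᶠ n : ℕ in atTop, Real.exp ((n : ℝ) ^ κ) ≤ a n)
    (A : ℕ) (δ ε : ℝ) (hδ : 0 < δ) (hε : 0 < ε) :
    ∃ c C : ℝ, 0 < c ∧ 0 < C ∧ ∀ᵐ α : ℝ ∂volume, 0 < α → ∀ᶠ n : ℕ in atTop, ∀ H : ℝ,
      δ * Real.log (a n) ≤ H → H ≤ Real.log (a n) ^ A →
        |(roughIn (level c (a n)) (α * a n) H : ℝ) - V (level c (a n)) * H| ≤ ε * (V (level c (a n)) * H) ∧
        H * Real.log (Real.log (a n)) / (C * Real.log (a n)) ≤ roughIn (level c (a n)) (α * a n) H ∧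
        (∀ m : ℕ, α * a n ≤ m → (m : ℝ) ≤ α * a n + H → Rough (level c (a n)) m →
          (m.primeFactorsList.length : ℝ) ≤ C * Real.log (Real.log (a n))) ∧
        (primesIn (α * a n) H : ℝ) ≤ C * (H * Real.log (Real.log (a n)) / Real.log (a n)) := by
  classical
  set ε' : ℝ := min ε (1 / 2) with hε'
  have hε'0 : 0 < ε' := lt_min hε (by norm_num)
  have hε'1 : ε' ≤ 1 / 2 := min_le_right _ _
  obtain ⟨c, hc, h⟩ := real_law a κ hκ ha A δ ε' hδ hε'0
  obtain ⟨c1, hc1, hVl⟩ := Vz_lower
  obtain ⟨C1, hC1, hVu⟩ := Vz_upper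
  set C : ℝ := 2 * c / c1 + 4 * C1 / c + 4 / c with hC
  have hCa : 2 * c / c1 ≤ C := by
    have : 0 < 4 * C1 / c := by positivity
    have : 0 < 4 / c := by positivity
    rw [hC]; linarith
  have hCb : 4 * C1 / c ≤ C := by
    have : 0 < 2 * c / c1 := by positivity
    have : 0 < 4 / c := by positivity
    rw [hC]; linarith
  have hCc : 4 / c ≤ C := by
    have : 0 < 2 * c / c1 := by positivity
    have : 0 < 4 * C1 / c := by positivity
    rw [hC]; linarith
  have hC0 : 0 < C := by rw [hC]; positivity
  refine ⟨c, C, hc, hC0, ?_⟩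
  have hat := a_tendsto a κ hκ ha
  have hlt : Tendsto (fun n => Real.log (a n)) atTop atTop := Real.tendsto_log_atTop.comp hat
  have hllt : Tendsto (fun n => Real.log (Real.log (a n))) atTop atTop := Real.tendsto_log_atTop.comp hlt
  filter_upwards [h c hc le_rfl] with α hα h0
  filter_upwards [hα h0, hat.eventually_gt_atTop 1, hlt.eventually_ge_atTop 3, hllt.eventually_ge_atTop 1,
    hllt.eventually_ge_atTop (2 * c), hlt.eventually (ev_exp_div 1 (c / 2) (by positivity) 1),
    hlt.eventually_ge_atTop (2 * Real.log (α + 1)), hlt.eventually (ev_pow_exp 1 1 one_pos A),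
    hlt.eventually_ge_atTop (-(2 * Real.log α) + 2)] with n hn g1 g2 g3 g4 g5 g6 g7 g8 H hH1 hH2
  have hmain := hn H hH1 hH2
  set x0 := a n with hx0
  set L := Real.log x0 with hL
  set ℓ := Real.log L with hℓ
  have hx00 : 0 < x0 := by linarith
  have hL0 : 0 < L := by linarith
  have hℓ0 : 0 < ℓ := by linarith
  set z := zL c L with hz
  have hlev : level c x0 = z := rfl
  have hVV : V z = Vz z := rfl
  have hro : ∀ x H : ℝ, roughIn z x H = Pool.Agent.H36.RW.roughIn z x H := fun x H => rfl
  rw [hlev, hVV, hro]
  -- the size of z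
  have hzlt : Real.exp (c * L / ℓ) < z + 1 := Nat.lt_floor_add_one _
  have he3 : 3 ≤ Real.exp (c * L / (2 * ℓ)) := by
    rw [pow_one, one_mul] at g5
    have h4 : c / 2 * L / Real.log L = c * L / (2 * ℓ) := by
      rw [← hℓ]
      field_simp
    rw [h4] at g5
    linarith
  have hzge : Real.exp (c * L / (2 * ℓ)) ≤ z := by
    have h2 : Real.exp (c * L / ℓ) = Real.exp (c * L / (2 * ℓ)) * Real.exp (c * L / (2 * ℓ)) := by
      rw [← Real.exp_add]
      congr 1
      field_simp
      ring
    rw [h2] at hzlt
    have h4 : 3 * Real.exp (c * L / (2 * ℓ)) ≤ Real.exp (c * L / (2 * ℓ)) * Real.exp (c * L / (2 * ℓ)) :=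
      mul_le_mul_of_nonneg_right he3 (Real.exp_pos _).le
    linarith
  have hz3 : (3 : ℝ) ≤ z := he3.trans hzge
  have hz2 : 2 ≤ z := by
    have : (2 : ℝ) ≤ z := by linarith
    exact_mod_cast this
  have hlogz0 : 0 < Real.log z := Real.log_pos (by linarith)
  have hlogz1 : c * L / (2 * ℓ) ≤ Real.log z := by
    calc c * L / (2 * ℓ) = Real.log (Real.exp (c * L / (2 * ℓ))) := (Real.log_exp _).symm
      _ ≤ Real.log z := Real.log_le_log (Real.exp_pos _) hzge
  have hlogz2 : Real.log z ≤ c * L / ℓ := by
    rw [← Real.log_exp (c * L / ℓ)]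
    exact Real.log_le_log (by linarith) (zL_le c L)
  have hV0 : 0 < Vz z := Vz_pos z
  have hH0 : 0 < H := lt_of_lt_of_le (by positivity) hH1
  have hVlow : c1 * ℓ / (c * L) ≤ Vz z := by
    refine le_trans ?_ ((div_le_div_of_nonneg_left hc1.le hlogz0 hlogz2).trans (hVl z hz2))
    apply le_of_eq
    field_simp
  have hVup : Vz z ≤ 2 * C1 * ℓ / (c * L) := by
    refine ((hVu z hz2).trans (div_le_div_of_nonneg_left hC1.le (by positivity) hlogz1)).trans (le_of_eq ?_)
    field_simp
  have hVH : 0 < Vz z * H := by positivity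
  have hr := abs_le.1 hmain
  -- the starting point
  set x := α * x0 with hx
  have hxpos : 0 < x := by positivity
  have hlogx : Real.log x = Real.log α + L := by
    rw [hx, Real.log_mul h0.ne' hx00.ne']
  refine ⟨hmain.trans (mul_le_mul_of_nonneg_right (min_le_left _ _) hVH.le), ?_, ?_, ?_⟩
  · have h1 : 1 / 2 * (Vz z * H) ≤ Pool.Agent.H36.RW.roughIn z x H := by
      have h2 : ε' * (Vz z * H) ≤ 1 / 2 * (Vz z * H) := mul_le_mul_of_nonneg_right hε'1 hVH.le
      linarith [hr.1]
    refine le_trans ?_ h1
    calc H * ℓ / (C * L) ≤ H * ℓ / (2 * c / c1 * L) := by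
          apply div_le_div_of_nonneg_left (by positivity) (by positivity)
          exact mul_le_mul_of_nonneg_right hCa hL0.le
      _ = 1 / 2 * (c1 * ℓ / (c * L) * H) := by field_simp
      _ ≤ 1 / 2 * (Vz z * H) := by gcongr
  · intro m hm1 hm2 hm3
    have hm0 : (0 : ℝ) < m := lt_of_lt_of_le hxpos hm1
    have hm0' : 0 < m := by exact_mod_cast hm0
    have h1 := rough_length z m hz2 hm0' hm3
    have hHx : H ≤ x0 := by
      rw [one_mul, one_mul, Real.exp_log hx00] at g7
      exact hH2.trans g7
    have h2 : Real.log m ≤ 2 * L := by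
      have h3 : (m : ℝ) ≤ (α + 1) * x0 := by
        calc (m : ℝ) ≤ α * x0 + H := hm2
          _ ≤ (α + 1) * x0 := by linarith
      have h4 := Real.log_le_log hm0 h3
      rw [Real.log_mul (by positivity) hx00.ne', ← hL] at h4
      linarith
    have h3 : (m.primeFactorsList.length : ℝ) * (c * L / (2 * ℓ)) ≤ 2 * L := by
      have h4 : (m.primeFactorsList.length : ℝ) * (c * L / (2 * ℓ)) ≤ (m.primeFactorsList.length : ℝ) * Real.log z :=
        mul_le_mul_of_nonneg_left hlogz1 (Nat.cast_nonneg _)
      linarith
    have h4 : (m.primeFactorsList.length : ℝ) ≤ 4 / c * ℓ := by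
      have h5 : (m.primeFactorsList.length : ℝ) * (c * L / (2 * ℓ)) * (2 * ℓ / (c * L)) ≤ 2 * L * (2 * ℓ / (c * L)) :=
        mul_le_mul_of_nonneg_right h3 (by positivity)
      have h6 : (m.primeFactorsList.length : ℝ) * (c * L / (2 * ℓ)) * (2 * ℓ / (c * L)) = m.primeFactorsList.length := by
        field_simp
      have h7 : 2 * L * (2 * ℓ / (c * L)) = 4 / c * ℓ := by
        field_simp
        ring
      rw [h6, h7] at h5
      exact h5
    exact h4.trans (mul_le_mul_of_nonneg_right hCc hℓ0.le)
  · -- primes are rough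
    have hzx : (z : ℝ) < x := by
      have h1 : (z : ℝ) ≤ Real.exp (L / 2) := by
        refine (zL_le c L).trans (Real.exp_le_exp.2 ?_)
        rw [← hℓ, div_le_div_iff₀ hℓ0 (by norm_num)]
        nlinarith
      have h2 : Real.exp (L / 2) < Real.exp (Real.log x) := by
        apply Real.exp_lt_exp.2
        rw [hlogx]
        linarith
      rw [Real.exp_log hxpos] at h2
      linarith
    have h1 : primesIn x H ≤ Pool.Agent.H36.RW.roughIn z x H := by
      unfold primesIn Pool.Agent.H36.RW.roughIn
      apply card_le_card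
      intro p hp
      rw [mem_filter, mem_Icc] at hp ⊢
      refine ⟨hp.1, ?_⟩
      intro q hq hd
      have h2 := (Nat.prime_dvd_prime_iff_eq hq hp.2).1 hd
      have h3 : x ≤ p := (Nat.le_ceil x).trans (by exact_mod_cast hp.1.1)
      have h4 : (z : ℝ) < q := by
        rw [h2]
        linarith
      exact_mod_cast h4
    have h2 : (primesIn x H : ℝ) ≤ Pool.Agent.H36.RW.roughIn z x H := by exact_mod_cast h1
    have h3 : (Pool.Agent.H36.RW.roughIn z x H : ℝ) ≤ 2 * (Vz z * H) := by
      have h4 : ε' * (Vz z * H) ≤ 1 / 2 * (Vz z * H) := mul_le_mul_of_nonneg_right hε'1 hVH.le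
      linarith [hr.2]
    calc (primesIn x H : ℝ) ≤ 2 * (Vz z * H) := h2.trans h3
      _ ≤ 2 * (2 * C1 * ℓ / (c * L) * H) := by gcongr
      _ = 4 * C1 / c * (H * ℓ / L) := by
          field_simp
          ring
      _ ≤ C * (H * ℓ / L) := mul_le_mul_of_nonneg_right hCb (by positivity)

end Pool.Agent.Results.MP_78b39f_nt.EveryExponent
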