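import Pool.Agent.H36.BF.PowR

/-!
# Almost primes and primes just above EVERY large power of almost every real number

The question is on the primes in the intervals `[2 ^ n, 2 ^ n + p_n]`, for every `n`.  Here the base `2` is
replaced by a real number `θ > 1`, and the exponents by any sequence `b_n ≥ n ^ κ`, for instance `b_n = n`.
For almost every `θ` and EVERY large `n`, with no exceptional set of exponents, we consider the
intervals `[x, x + H]`, `x = θ ^ b_n`.  The constants are uniform for `u ≤ θ ≤ u ^ 2`.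

* If `δ log x ≤ H ≤ (log x) ^ A`, the number of the integers in `[x, x + H]` all of whose prime factors are
larger than `z = exp (c log x₀ / log log x₀)`, `x₀ = u ^ b_n`, is `(1 + O(ε)) H ∏_{q ≤ z} (1 - 1 / q)`,
of the order of magnitude `H log log x / log x`; these integers have at most `C log log x` prime
factors, and the number of primes in `[x, x + H]` is at most `C H log log x / log x`.  For
`b_n = n` the length `p_n ~ n log n` of the question is covered.
* If `(log x) ^ (1 + δ) ≤ H ≤ (log x) ^ A`, the number of the integers in `[x, x + H]` all of whose prime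
factors are larger than `x₀ ^ c'` is of the order of magnitude `H / log x`; they have at most `r` prime
factors, and the number of primes in `[x, x + H]` is at most `C H / log x`.

For almost every base the earlier results on primes and almost primes above the powers hold for sets of
exponents of positive density, or of density close to one.  The proof uses the bounds
`O(X / (log X) ^ A)` for the number of exceptional integers, from high moments, and the lemma of Borel
and Cantelli in the variable `θ`.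
-/

set_option autoImplicit false

open MeasureTheory Filter Finset

namespace Pool.Agent.Results.MP_78b39f_nt.EveryPower

/-- all prime factors of `m` are larger than `y` -/
def Rough (y : ℝ) (m : ℕ) : Prop := ∀ q : ℕ, q.Prime → q ∣ m → y < q

open Classical in
/-- the number of the integers in `[x, x + H]` all of whose prime factors are larger than `y` -/
noncomputable def roughIn (y x H : ℝ) : ℕ := ((Icc ⌈x⌉₊ ⌊x + H⌋₊).filter (fun m => Rough y m)).card

/-- the number of primes in `[x, x + H]` -/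
noncomputable def primesIn (x H : ℝ) : ℕ := ((Icc ⌈x⌉₊ ⌊x + H⌋₊).filter Nat.Prime).card

/-- the product of `1 - 1 / q` over the primes `q ≤ y` -/
noncomputable def V (y : ℝ) : ℝ := ∏ q ∈ (Icc 1 ⌊y⌋₊).filter Nat.Prime, (1 - 1 / (q : ℝ))

/-- `exp (c log x / log log x)` -/
noncomputable def level (c x : ℝ) : ℝ := Real.exp (c * Real.log x / Real.log (Real.log x))

lemma roughIn_floor (y x H : ℝ) (hy : 0 ≤ y) : roughIn y x H = Pool.Agent.H36.RW.roughIn ⌊y⌋₊ x H := by
  classical
  unfold roughIn Pool.Agent.H36.RW.roughIn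
  congr 1
  apply filter_congr
  intro m _
  exact Pool.Agent.H36.BF.rough_floor y hy m

open Pool.Agent.H36.RW Pool.Agent.H36.BF Pool.Agent.H373R2.T7 in
theorem result (b : ℕ → ℝ) (κ : ℝ) (hκ : 0 < κ) (hb : ∀ᶠ n : ℕ in atTop, (n : ℝ) ^ κ ≤ b n)
    (A : ℕ) (δ ε u : ℝ) (hδ : 0 < δ) (hε : 0 < ε) (hu : 1 < u) :
    ∃ (r : ℕ) (c c' C : ℝ), 0 < c ∧ 0 < c' ∧ 0 < C ∧ ∀ᵐ θ : ℝ ∂volume, u ≤ θ → θ ≤ u ^ 2 →
      ∀ᶠ n : ℕ in atTop, ∀ H : ℝ, H ≤ Real.log (θ ^ b n) ^ A →
      (δ * Real.log (θ ^ b n) ≤ H →
        |(roughIn (level c (u ^ b n)) (θ ^ b n) H : ℝ) - V (level c (u ^ b n)) * H| ≤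
          ε * (V (level c (u ^ b n)) * H) ∧
        H * Real.log (Real.log (θ ^ b n)) / (C * Real.log (θ ^ b n)) ≤ roughIn (level c (u ^ b n)) (θ ^ b n) H ∧
        (∀ m : ℕ, θ ^ b n ≤ m → (m : ℝ) ≤ θ ^ b n + H → Rough (level c (u ^ b n)) m →
          (m.primeFactorsList.length : ℝ) ≤ C * Real.log (Real.log (θ ^ b n))) ∧
        (primesIn (θ ^ b n) H : ℝ) ≤ C * (H * Real.log (Real.log (θ ^ b n)) / Real.log (θ ^ b n))) ∧
      (Real.log (θ ^ b n) ^ (1 + δ) ≤ H →
        H / (C * Real.log (θ ^ b n)) ≤ roughIn ((u ^ b n) ^ c') (θ ^ b n) H ∧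
        (roughIn ((u ^ b n) ^ c') (θ ^ b n) H : ℝ) ≤ C * (H / Real.log (θ ^ b n)) ∧
        (∀ m : ℕ, θ ^ b n ≤ m → (m : ℝ) ≤ θ ^ b n + H → Rough ((u ^ b n) ^ c') m →
          m.primeFactorsList.length ≤ r) ∧
        (primesIn (θ ^ b n) H : ℝ) ≤ C * (H / Real.log (θ ^ b n))) := by
  classical
  -- constants
  obtain ⟨A2, hA2⟩ := exists_nat_ge (2 / κ)
  set A' := max (A + 1) A2 with hA'
  have hA'2 : 2 ≤ (A' : ℝ) * κ := by
    have h1 : (A2 : ℝ) ≤ A' := by exact_mod_cast le_max_right _ _
    have h2 := mul_le_mul_of_nonneg_right (hA2.trans h1) hκ.le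
    rwa [div_mul_cancel₀ _ hκ.ne'] at h2
  have hA'1 : A + 1 ≤ A' := le_max_left _ _
  set ε' : ℝ := min ε (1 / 2) with hε'
  have hε'0 : 0 < ε' := lt_min hε (by norm_num)
  have hε'1 : ε' ≤ 1 / 2 := min_le_right _ _
  have hm0 : 0 < min ε' 1 := lt_min hε'0 one_pos
  have hm1 : min ε' 1 ≤ 1 := min_le_right _ _
  obtain ⟨c0, hc0, hd⟩ := disc_all A' (δ / 2) (min ε' 1 / 2) (by positivity) (by positivity) (by linarith)
  set c := min c0 (1 / 2) with hcd
  have hc : 0 < c := lt_min hc0 (by norm_num)
  have hc12 : c ≤ 1 / 2 := min_le_right _ _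
  have hd' := hd c hc (min_le_left _ _)
  obtain ⟨η0, hη0, hall⟩ := bf_all
  set δ' : ℝ := min δ η0 / 2 with hδ'
  have hmδ : 0 < min δ η0 := lt_min hδ hη0
  have hδ'0 : 0 < δ' := by positivity
  have hδ'1 : 2 * δ' ≤ δ := by
    rw [hδ']
    linarith [min_le_left δ η0]
  have hδ'2 : δ' ≤ η0 := by
    rw [hδ']
    linarith [min_le_right δ η0]
  obtain ⟨c2, hc2, hc22, hd2⟩ := hall A' δ' hδ'0 hδ'2
  obtain ⟨c1, hc1, hVl⟩ := Vz_lower
  obtain ⟨C1, hC1, hVu⟩ := Vz_upper
  set C : ℝ := 8 * c / c1 + 12 * C1 / c + 8 / c + 64 * c2 / c1 + 128 * C1 / c2 with hC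
  have p1 : 0 < 8 * c / c1 := by positivity
  have p2 : 0 < 12 * C1 / c := by positivity
  have p3 : 0 < 8 / c := by positivity
  have p4 : 0 < 64 * c2 / c1 := by positivity
  have p5 : 0 < 128 * C1 / c2 := by positivity
  have hC0 : 0 < C := by rw [hC]; positivity
  refine ⟨⌈8 / c2⌉₊, c, c2, C, hc, hc2, hC0, ?_⟩
  -- limits
  have hlu : 0 < Real.log u := Real.log_pos hu
  have hbt : Tendsto b atTop atTop := by
    apply tendsto_atTop_mono' atTop hb
    exact (tendsto_rpow_atTop hκ).comp tendsto_natCast_atTop_atTop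
  have hLt : Tendsto (fun n => b n * Real.log u) atTop atTop := hbt.atTop_mul_const hlu
  have hllt : Tendsto (fun n => Real.log (b n * Real.log u)) atTop atTop := Real.tendsto_log_atTop.comp hLt
  have hone : ∀ p : ℕ, p.Prime → ¬ p ∣ 1 := fun p hp hd => hp.one_lt.ne' (Nat.dvd_one.1 hd)
  have B1 := bc_pow b κ hκ hb u hu A' hA'2 (fun n l => ∃ T : ℕ, δ / 2 * (b n * Real.log u) ≤ T ∧
    (T : ℝ) ≤ (b n * Real.log u) ^ A' ∧ Bad (min ε' 1 / 2) (zL c (b n * Real.log u)) l T) (by
      filter_upwards [hLt.eventually hd'] with n h3 X hX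
      have h5 := h3 X hX 1 0 (fun p hp _ _ => hone p hp)
      simp only [one_mul, add_zero] at h5
      convert h5 using 4)
  have B2 := bc_pow b κ hκ hb u hu A' hA'2 (fun n l => ∃ T : ℕ, (b n * Real.log u) ^ (1 + δ') ≤ T ∧
    (T : ℝ) ≤ (b n * Real.log u) ^ A' ∧ ¬ Ok (1 / 32) 16 (Rg (zE c2 (b n * Real.log u)) l T)
      (T * Vz (zE c2 (b n * Real.log u)))) (by
      filter_upwards [hLt.eventually hd2] with n h3 X hX
      have h5 := h3 X hX 1 0 (fun p hp _ _ => hone p hp)
      simp only [one_mul, add_zero] at h5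
      convert h5 using 4)
  filter_upwards [B1, B2] with θ hθ1 hθ2 hθu hθu2
  filter_upwards [hθ1 hθu hθu2, hθ2 hθu hθu2, hbt.eventually_gt_atTop 0, hLt.eventually_ge_atTop 3,
    hllt.eventually_ge_atTop 1, hllt.eventually_ge_atTop (2 * c), hLt.eventually (ev_exp_div 3 (c / 2) (by positivity) 0),
    hLt.eventually (ev_pow_exp 3 (c2 / 2) (by positivity) 0), hLt.eventually_ge_atTop ((1 + 2 / min ε' 1) / δ),
    hLt.eventually_ge_atTop (2 ^ A + 1), hLt.eventually ((tendsto_rpow_atTop hδ'0).eventually_ge_atTop 2),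
    hLt.eventually (ev_pow_exp (2 ^ A) 1 one_pos A), hLt.eventually_ge_atTop (2 / δ)] with
    n hn1 hn2 g0 g1 g2 g3 g4 g5 g6 g7 g8 g9 g10 H hHA
  set B := b n with hB
  set L0 := B * Real.log u with hL0
  set ℓ0 := Real.log L0 with hℓ0
  have hu0 : 0 < u := by linarith
  have hθ0 : 0 < θ := by linarith
  set x := θ ^ B with hx
  have hlogx0 : Real.log (u ^ B) = L0 := by rw [Real.log_rpow hu0]
  have hL : Real.log x = B * Real.log θ := by rw [hx, Real.log_rpow hθ0]
  set L := Real.log x with hLd
  have hL0L : L0 ≤ L := by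
    rw [hL, hL0]
    exact mul_le_mul_of_nonneg_left (Real.log_le_log hu0 hθu) g0.le
  have hL2L0 : L ≤ 2 * L0 := by
    have h1 : Real.log θ ≤ 2 * Real.log u := by
      have := Real.log_le_log hθ0 hθu2
      rwa [Real.log_pow] at this
    rw [hL, hL0]
    calc B * Real.log θ ≤ B * (2 * Real.log u) := mul_le_mul_of_nonneg_left h1 g0.le
      _ = 2 * (B * Real.log u) := by ring
  have hL00 : 0 < L0 := by linarith
  have hLpos : 0 < L := by linarith
  have hL1 : 1 ≤ L := by linarith
  have hL01 : 1 ≤ L0 := by linarith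
  have hx0 : 0 < x := by positivity
  have hexpL : Real.exp L = x := Real.exp_log hx0
  have hx1 : 1 < x := by
    rw [← hexpL]
    exact Real.one_lt_exp_iff.2 hLpos
  set ℓ := Real.log L with hℓ
  have hℓ0ℓ : ℓ0 ≤ ℓ := Real.log_le_log hL00 hL0L
  have hℓ2 : ℓ ≤ 2 * ℓ0 := by
    have h1 := Real.log_le_log hLpos hL2L0
    rw [Real.log_mul (by norm_num) hL00.ne'] at h1
    have := log_two_bounds.2
    linarith
  have hℓ00 : 0 < ℓ0 := by linarith
  have hℓpos : 0 < ℓ := by linarith
  have hHx : H ≤ x := by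
    have h1 : L ^ A ≤ (2 * L0) ^ A := pow_le_pow_left₀ hLpos.le hL2L0 A
    rw [mul_pow] at h1
    rw [one_mul] at g9
    have h2 : Real.exp L0 ≤ x := by
      rw [← hexpL]
      exact Real.exp_le_exp.2 hL0L
    linarith
  have hTup : ∀ T : ℕ, (T : ℝ) ≤ H + 1 → (T : ℝ) ≤ L0 ^ A' := by
    intro T hT
    have h1 : L ^ A ≤ (2 * L0) ^ A := pow_le_pow_left₀ hLpos.le hL2L0 A
    rw [mul_pow] at h1
    have h2 : (1 : ℝ) ≤ L0 ^ A := one_le_pow₀ hL01
    have h3 : (2 ^ A + 1) * L0 ^ A ≤ L0 * L0 ^ A := mul_le_mul_of_nonneg_right g7 (by positivity)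
    have h4 : L0 * L0 ^ A = L0 ^ (A + 1) := by ring
    have h5 : L0 ^ (A + 1) ≤ L0 ^ A' := pow_le_pow_right₀ hL01 hA'1
    have h6 : (2 ^ A + 1) * L0 ^ A = 2 ^ A * L0 ^ A + L0 ^ A := by ring
    linarith
  have hpr : ∀ z : ℕ, (z : ℝ) ≤ Real.exp (L0 / 2) → (primesIn x H : ℝ) ≤ Pool.Agent.H36.RW.roughIn z x H := by
    intro z hz
    have h1 := primes_le x H z (by
      refine lt_of_le_of_lt hz ?_
      rw [← hexpL]
      apply Real.exp_lt_exp.2
      linarith)
    exact_mod_cast h1
  constructor
  · intro hH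
    -- first part
    have hw : level c (u ^ B) = Real.exp (c * L0 / ℓ0) := by
      unfold level
      rw [hlogx0]
    set w := c * L0 / ℓ0 with hwd
    have hw0 : 0 < w := by positivity
    have hV : V (level c (u ^ B)) = Vz (zL c L0) := by
      rw [hw]
      rfl
    have hro : roughIn (level c (u ^ B)) x H = Pool.Agent.H36.RW.roughIn (zL c L0) x H := by
      rw [hw, roughIn_floor _ _ _ (Real.exp_pos _).le]
      rfl
    rw [hV, hro]
    have hHlow : 1 + 2 / min ε' 1 ≤ H := by
      rw [div_le_iff₀ hδ] at g6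
      have := mul_le_mul_of_nonneg_left hL0L hδ.le
      linarith
    have hH1 : 1 ≤ H := by
      have : 0 < 2 / min ε' 1 := by positivity
      linarith
    have hH0 : 0 < H := by linarith
    obtain ⟨T, hT1, hT2, hT3⟩ := win x H hx0 hH1
    have hbad : ¬ Bad (min ε' 1 / 2) (zL c L0) (⌈x⌉₊ - 1) T := by
      intro hb'
      apply hn1
      refine ⟨T, ?_, hTup T hT2, hb'⟩
      rw [div_le_iff₀ hδ] at g10
      have := mul_le_mul_of_nonneg_left hL0L hδ.le
      linarith
    have hVH : 0 < Vz (zL c L0) * H := mul_pos (Vz_pos _) hH0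
    have hlaw := law_real (zL c L0) (⌈x⌉₊ - 1) T H ε' hε'0 hHlow hT1 hT2 hbad
    rw [← hT3 (zL c L0)] at hlaw
    have hr := abs_le.1 hlaw
    have hε'V : ε' * (Vz (zL c L0) * H) ≤ 1 / 2 * (Vz (zL c L0) * H) := mul_le_mul_of_nonneg_right hε'1 hVH.le
    obtain ⟨q1, q2, q3, q4⟩ := conseq x H L w c1 C1 (1 / 2) (3 / 2) (Pool.Agent.H36.RW.roughIn (zL c L0) x H) (zL c L0)
      hL1 hH0 hw0 rfl (by
        rw [pow_zero, mul_one] at g4
        refine g4.trans (le_of_eq ?_)
        congr 1
        rw [hwd, hℓ0]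
        ring) hc1 hC1 (by norm_num) (by norm_num) hVl hVu (by linarith [hr.1]) (by linarith [hr.2])
    have hup : (Pool.Agent.H36.RW.roughIn (zL c L0) x H : ℝ) ≤ C * (H * ℓ / L) := by
      calc (Pool.Agent.H36.RW.roughIn (zL c L0) x H : ℝ) ≤ 2 * (3 / 2) * C1 * (H / w) := q4
        _ = 3 * C1 / c * (H * ℓ0 / L0) := by
            rw [hwd]
            field_simp
        _ ≤ 3 * C1 / c * (H * ℓ / (L / 2)) := by
            gcongr
            linarith
        _ = 6 * C1 / c * (H * ℓ / L) := by
            field_simp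
            ring
        _ ≤ C * (H * ℓ / L) := by
            apply mul_le_mul_of_nonneg_right _ (by positivity)
            have : 6 * C1 / c ≤ 12 * C1 / c := by
              apply div_le_div_of_nonneg_right _ hc.le
              linarith
            rw [hC]
            linarith
    refine ⟨hlaw.trans (mul_le_mul_of_nonneg_right (min_le_left _ _) hVH.le), ?_, ?_, ?_⟩
    · refine le_trans ?_ q3
      calc H * ℓ / (C * L) ≤ H * (2 * ℓ0) / ((8 * c / c1) * L0) := by
            have : 8 * c / c1 ≤ C := by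
              rw [hC]
              linarith
            gcongr
        _ = 1 / 4 * (c1 / c * (H * ℓ0 / L0)) := by
            field_simp
            ring
        _ ≤ 1 / 2 * (c1 / c * (H * ℓ0 / L0)) := by
            apply mul_le_mul_of_nonneg_right (by norm_num) (by positivity)
        _ = 1 / 2 * c1 * (H / w) := by
            rw [hwd]
            field_simp
    · intro m hm1' hm2' hm3'
      have h1 : Pool.Agent.H36.RW.Rough (zL c L0) m := by
        rw [hw] at hm3'
        exact (rough_floor _ (Real.exp_pos _).le m).1 hm3'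
      have h2 := few_factors x H L (w / 2) (zL c L0) m hx1 rfl hL1 hHx (by positivity) q1 q2 hm1' hm2' h1
      refine h2.trans ?_
      calc 2 * L / (w / 2) = 4 * L / w := by
            field_simp
            ring
        _ ≤ 4 * (2 * L0) / w := by gcongr
        _ = 8 / c * ℓ0 := by
            rw [hwd]
            field_simp
            ring
        _ ≤ C * ℓ := by
            have : 8 / c ≤ C := by
              rw [hC]
              linarith
            gcongr
    · refine (hpr (zL c L0) ?_).trans hup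
      refine (zL_le c L0).trans (Real.exp_le_exp.2 ?_)
      rw [div_le_div_iff₀ hℓ00 (by norm_num)]
      have h1 : c * L0 * 2 ≤ 1 * L0 := by
        have := mul_le_mul_of_nonneg_right hc12 hL00.le
        linarith
      have h2 : 1 * L0 ≤ L0 * ℓ0 := by
        have := mul_le_mul_of_nonneg_left g2 hL00.le
        linarith
      linarith
  · intro hH
    -- second part
    have hw : (u ^ B) ^ c2 = Real.exp (c2 * L0) := by
      rw [Real.rpow_def_of_pos (by positivity), hlogx0, mul_comm]
    set w := c2 * L0 with hwd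
    have hw0 : 0 < w := by positivity
    have hro : roughIn ((u ^ B) ^ c2) x H = Pool.Agent.H36.RW.roughIn (zE c2 L0) x H := by
      rw [hw, roughIn_floor _ _ _ (Real.exp_pos _).le]
      rfl
    rw [hro]
    have hw1 : 1 ≤ L0 ^ (1 + δ') := Real.one_le_rpow hL01 (by linarith)
    have hHlow : L0 ^ (1 + δ') + 1 ≤ H := by
      refine le_trans ?_ hH
      calc L0 ^ (1 + δ') + 1 ≤ 2 * L0 ^ (1 + δ') := by linarith
        _ ≤ L0 ^ δ' * L0 ^ (1 + δ') := mul_le_mul_of_nonneg_right g8 (by positivity)
        _ = L0 ^ (δ' + (1 + δ')) := (Real.rpow_add hL00 _ _).symm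
        _ ≤ L0 ^ (1 + δ) := Real.rpow_le_rpow_of_exponent_le hL01 (by linarith)
        _ ≤ L ^ (1 + δ) := Real.rpow_le_rpow hL00.le hL0L (by linarith)
    have hH1 : 1 ≤ H := by linarith
    have hH0 : 0 < H := by linarith
    obtain ⟨T, hT1, hT2, hT3⟩ := win x H hx0 hH1
    have hok : Ok (1 / 32) 16 (Rg (zE c2 L0) (⌈x⌉₊ - 1) T) (T * Vz (zE c2 L0)) := by
      by_contra hb'
      apply hn2
      exact ⟨T, by linarith, hTup T hT2, hb'⟩
    rw [← hT3 (zE c2 L0)] at hok
    obtain ⟨hok1, hok2⟩ := hok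
    have hV0 : 0 < Vz (zE c2 L0) := Vz_pos _
    have hTH : H / 2 ≤ T := by linarith
    have hTH2 : (T : ℝ) ≤ 2 * H := by linarith
    obtain ⟨q1, q2, q3, q4⟩ := conseq x H L w c1 C1 (1 / 64) 32 (Pool.Agent.H36.RW.roughIn (zE c2 L0) x H) (zE c2 L0)
      hL1 hH0 hw0 rfl (by
        rw [pow_zero, mul_one] at g5
        refine g5.trans (le_of_eq ?_)
        congr 1
        rw [hwd]
        ring) hc1 hC1 (by norm_num) (by norm_num) hVl hVu (by
        refine le_trans ?_ hok1
        have := mul_le_mul_of_nonneg_right hTH hV0.le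
        linarith) (by
        refine hok2.trans ?_
        have := mul_le_mul_of_nonneg_right hTH2 hV0.le
        linarith)
    have hup : (Pool.Agent.H36.RW.roughIn (zE c2 L0) x H : ℝ) ≤ C * (H / L) := by
      calc (Pool.Agent.H36.RW.roughIn (zE c2 L0) x H : ℝ) ≤ 2 * 32 * C1 * (H / w) := q4
        _ = 64 * C1 / c2 * (H / L0) := by
            rw [hwd]
            field_simp
            ring
        _ ≤ 64 * C1 / c2 * (H / (L / 2)) := by
            gcongr
            linarith
        _ = 128 * C1 / c2 * (H / L) := by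
            field_simp
            ring
        _ ≤ C * (H / L) := by
            apply mul_le_mul_of_nonneg_right _ (by positivity)
            rw [hC]
            linarith
    refine ⟨?_, hup, ?_, ?_⟩
    · refine le_trans ?_ q3
      calc H / (C * L) ≤ H / ((64 * c2 / c1) * L0) := by
            have : 64 * c2 / c1 ≤ C := by
              rw [hC]
              linarith
            gcongr
        _ = 1 / 64 * c1 * (H / w) := by
            rw [hwd]
            field_simp
    · intro m hm1' hm2' hm3'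
      have h1 : Pool.Agent.H36.RW.Rough (zE c2 L0) m := by
        rw [hw] at hm3'
        exact (rough_floor _ (Real.exp_pos _).le m).1 hm3'
      have h2 := few_factors x H L (w / 2) (zE c2 L0) m hx1 rfl hL1 hHx (by positivity) q1 q2 hm1' hm2' h1
      have h3 : 2 * L / (w / 2) ≤ 8 / c2 := by
        calc 2 * L / (w / 2) = 4 * L / w := by
              field_simp
              ring
          _ ≤ 4 * (2 * L0) / w := by gcongr
          _ = 8 / c2 := by
              rw [hwd]
              field_simp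
              ring
      exact_mod_cast (h2.trans h3).trans (Nat.le_ceil _)
    · refine (hpr (zE c2 L0) ?_).trans hup
      refine (zE_le c2 L0).trans (Real.exp_le_exp.2 ?_)
      have := mul_le_mul_of_nonneg_right hc22 hL00.le
      linarith

end Pool.Agent.Results.MP_78b39f_nt.EveryPower
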