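import Pool.Agent.H36.RW.Multi2
import Pool.Agent.H36.RW.Real

/-!
# Almost primes above the multiples of `2 ^ n`, for every `n`, with small exceptional sets

The question is on the numbers just above `2 ^ n`, for every `n`.  We look at the numbers just above the
multiples `l 2 ^ n` of `2 ^ n` (or above the members `l 2 ^ n + r` of any residue class), where `l` runs
through an arbitrary interval of length `K ≥ exp L`; `L` may be `θ n` with an arbitrarily small `θ > 0`, so
that these are very sparse sets, and every large `n` is treated.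

For every `k` between `1` and `L ^ η` all but at most `C exp (-k) K` of the `l` have the property: for ALL `H`
between `δ L` and `exp (k) L` at once, the interval `(l 2 ^ n + r, l 2 ^ n + r + H]` contains
`(1 + O(ε)) H ∏_{p ≤ z} (1 - 1/p)` integers all of whose prime factors are larger than
`z = exp (c L / k)`.  Such integers have `O(k)` prime factors if `n` and `log l` are `O(L)`.  So there is a
trade-off between the number of prime factors and the size of the exceptional set: for bounded `k` the
exceptional set is a small proportion, for `k = A log L` it has the size `K L ^ (-A)`, and for `k = L ^ η`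
it has the size `K exp (-L ^ η)`.  The windows may be as short as a small multiple of the average distance of
the primes.  Instead of `2 ^ n` any modulus `q` without prime factors in `(log L, z]` is possible.

Proof.  Moments of order `2 k` of the number of survivors, a form of the Brun-Hooley sieve that is uniform
in the dimension, and a bound for the generating function in the model with independent residue classes;
see `Pool.Agent.H36.RW`.
-/

set_option autoImplicit false

open Filter Finset

namespace Pool.Agent.Results.MP_78b39f_nt.ExceptionalMultiples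

/-- all prime factors of `m` are larger than `z` -/
def Rough (z m : ℕ) : Prop := ∀ q : ℕ, q.Prime → q ∣ m → z < q

open Classical in
/-- the number of the integers in `(m, m + H]` all of whose prime factors are larger than `z` -/
noncomputable def roughIn (z m H : ℕ) : ℕ := ((Ioc m (m + H)).filter (fun x => Rough z x)).card

/-- the product of `1 - 1 / q` over the primes `q ≤ z` -/
noncomputable def V (z : ℕ) : ℝ := ∏ q ∈ (Icc 1 z).filter Nat.Prime, (1 - 1 / (q : ℝ))

/-- the integer part of `exp (c L / k)` -/
noncomputable def level (c L : ℝ) (k : ℕ) : ℕ := ⌊Real.exp (c * L / k)⌋₊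

open Pool.Agent.H36.RW Pool.Agent.H373R2.T7 in
lemma roughIn_eq (z m H : ℕ) : roughIn z m H = Rg z m H := by
  classical
  unfold roughIn Rg
  symm
  apply card_bij (fun h _ => m + h)
  · intro h hh
    rw [mem_filter, mem_Icc] at hh
    rw [mem_filter, mem_Ioc]
    refine ⟨by omega, (rough_iff z (m + h)).2 hh.2⟩
  · intro a _ b _ hab
    omega
  · intro y hy
    rw [mem_filter, mem_Ioc] at hy
    refine ⟨y - m, ?_, by omega⟩
    rw [mem_filter, mem_Icc]
    refine ⟨by omega, ?_⟩
    have : m + (y - m) = y := by omega
    rw [this]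
    exact (rough_iff z y).1 hy.2

open Pool.Agent.H36.RW Pool.Agent.H373R2.T7 in
open Classical in
theorem result (δ ε : ℝ) (hδ : 0 < δ) (hε : 0 < ε) :
    ∃ c C η : ℝ, 0 < c ∧ 0 < C ∧ 0 < η ∧ ∃ L₀ : ℝ, ∀ L : ℝ, L₀ ≤ L → ∀ k : ℕ, 1 ≤ k → (k : ℝ) ≤ L ^ η →
      ∀ q : ℕ, (∀ p : ℕ, p.Prime → p ∣ q → (p : ℝ) ≤ Real.log L ∨ Real.exp (c * L / k) < p) →
      ∀ r a K : ℕ, Real.exp L ≤ K →
        (((Ioc a (a + K)).filter (fun l => ∃ H : ℕ, δ * L ≤ H ∧ (H : ℝ) ≤ Real.exp k * L ∧
          ε * (V (level c L k) * H) < |(roughIn (level c L k) (q * l + r) H : ℝ) - V (level c L k) * H|)).card : ℝ) ≤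
            C * Real.exp (-k) * K := by
  obtain ⟨c, C, η, hc, hC, hη, h⟩ := disc_all_k δ (min ε 1) hδ (lt_min hε one_pos) (min_le_right _ _)
  obtain ⟨L₀, hL₀⟩ := eventually_atTop.1 h
  refine ⟨c, C, η, hc, hC, hη, L₀, ?_⟩
  intro L hL k hk1 hk2 q hq r a K hK
  have h1 := hL₀ L hL k hk1 hk2 K hK q (q * a + r) (by
    intro p hp h1 h2 hd
    rcases hq p hp hd with h3 | h3
    · linarith
    · have h4 : (p : ℝ) ≤ Real.exp (c * L / k) := le_trans (by exact_mod_cast h2) (zk_le c L k)
      linarith)
  refine le_trans ?_ h1
  have h2 : ((Ioc a (a + K)).filter (fun l => ∃ H : ℕ, δ * L ≤ H ∧ (H : ℝ) ≤ Real.exp k * L ∧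
          ε * (V (level c L k) * H) < |(roughIn (level c L k) (q * l + r) H : ℝ) - V (level c L k) * H|)).card ≤
      ((Icc 1 K).filter (fun l => ∃ T : ℕ, δ * L ≤ T ∧ (T : ℝ) ≤ Real.exp k * L ∧
        Bad (min ε 1) (zk c L k) (q * l + (q * a + r)) T)).card := by
    apply card_le_card_of_injOn (fun l => l - a)
    · intro l hl
      rw [mem_coe, mem_filter, mem_Ioc] at hl
      obtain ⟨⟨g1, g2⟩, H, g3, g4, g5⟩ := hl
      rw [mem_coe, mem_filter, mem_Icc]
      beta_reduce
      refine ⟨by omega, H, g3, g4, ?_⟩
      have e1 : q * (l - a) + (q * a + r) = q * l + r := by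
        have e0 : l - a + a = l := by omega
        rw [← add_assoc, ← mul_add, e0]
      rw [e1]
      unfold Bad
      rw [roughIn_eq] at g5
      have e2 : V (level c L k) = Vz (zk c L k) := rfl
      have e3 : level c L k = zk c L k := rfl
      rw [e2, e3] at g5
      have hV0 : 0 < Vz (zk c L k) := Vz_pos _
      have g6 : min ε 1 * ((H : ℝ) * Vz (zk c L k)) ≤ ε * (Vz (zk c L k) * H) := by
        rw [mul_comm (H : ℝ)]
        exact mul_le_mul_of_nonneg_right (min_le_left _ _) (by positivity)
      rw [mul_comm (H : ℝ) (Vz (zk c L k))] at g6 ⊢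
      exact lt_of_le_of_lt g6 g5
    · intro l hl l' hl' hll
      rw [mem_coe, mem_filter, mem_Ioc] at hl hl'
      simp only at hll
      omega
  exact_mod_cast h2

end Pool.Agent.Results.MP_78b39f_nt.ExceptionalMultiples
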